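import Pool.Agent.Helper17.SW.Eng
import Pool.Graph.R_pool_sql_team_seeded_3997aac3.Q78.Z3.Fin

/-!
# Ratios, uniformly in the end point
-/

set_option autoImplicit false

namespace Pool.Agent.Helper17.SW

open Finset Filter Topology MeasureTheory
open TH966.KO (μ mu_one c)
open Pool.Agent.N929.EG (psi3 ll psi3_nonneg one_le_psi3 phi3 exp_ll_le ll_nonneg)

/-- the walks from `0` to `x` in `D` -/
def Sd (n : ℕ) (x : Fin 3 → ℤ) (D : Set (Fin 3 → ℤ)) : Set (Fin (n + 1) → Fin 3 → ℤ) :=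
  {ω | TH966.KO.IsSAW n ω ∧ ω (Fin.last n) = x ∧ ∀ i, ω i ∈ D}

theorem psi3_pow (K ε : ℝ) (hK : 0 ≤ K) (hε : 0 < ε) : ∃ C : ℝ, 0 < C ∧ ∀ n : ℕ, 1 ≤ n →
    psi3 K n ≤ C * (n : ℝ) ^ (1 / 3 + ε) := by
  obtain ⟨K', hK'⟩ : ∃ K' : ℝ, K' = K / (3 * ε) := ⟨_, rfl⟩
  have hK0 : 0 ≤ K' := by rw [hK']; positivity
  refine ⟨Real.exp (192 * K' ^ 2) ^ (3 * ε) * 17 ^ ε, by positivity, fun n hn => ?_⟩
  have hn1 : (1 : ℝ) ≤ n := by exact_mod_cast hn
  have h1 := exp_ll_le K' hK0 n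
  have h2 : Real.exp (K * ll n) = Real.exp (K' * ll n) ^ (3 * ε) := by
    rw [← Real.exp_mul]
    congr 1
    rw [hK']
    field_simp
  have h3 : Real.exp (K * ll n) ≤ Real.exp (192 * K' ^ 2) ^ (3 * ε) * ((17 : ℝ) * n) ^ ε := by
    rw [h2]
    calc Real.exp (K' * ll n) ^ (3 * ε)
        ≤ (Real.exp (192 * K' ^ 2) * ((n : ℝ) + 16) ^ (1 / 3 : ℝ)) ^ (3 * ε) :=
          Real.rpow_le_rpow (Real.exp_pos _).le h1 (by positivity)
      _ = Real.exp (192 * K' ^ 2) ^ (3 * ε) * ((n : ℝ) + 16) ^ ε := by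
          rw [Real.mul_rpow (Real.exp_pos _).le (by positivity), ← Real.rpow_mul (by positivity)]
          congr 2
          ring
      _ ≤ _ := by
          refine mul_le_mul_of_nonneg_left ?_ (by positivity)
          exact Real.rpow_le_rpow (by positivity) (by linarith) hε.le
  rw [Real.mul_rpow (by norm_num) (by positivity)] at h3
  unfold psi3
  rw [Real.rpow_add (by linarith)]
  calc (n : ℝ) ^ (1 / 3 : ℝ) * Real.exp (K * ll n)
      ≤ (n : ℝ) ^ (1 / 3 : ℝ) * (Real.exp (192 * K' ^ 2) ^ (3 * ε) * (17 ^ ε * (n : ℝ) ^ ε)) :=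
        mul_le_mul_of_nonneg_left h3 (by positivity)
    _ = _ := by ring

/-- **Ratios, uniformly in the end point.** -/
theorem uni (ε : ℝ) (hε : 0 < ε) (hε1 : ε < 2 / 3) : ∃ (C δ : ℝ) (N : ℕ), 0 < C ∧ 0 < δ ∧
    δ ≤ 1 / 2 ∧ ∀ n : ℕ, N ≤ n → ∀ x : Fin 3 → ℤ, x ≠ 0 → 2 ∣ n - n1 x → (n1 x : ℝ) ≤ δ * n →
      ((Sx (n + 2) x).ncard : ℝ) ^ 2 ≤
        ((Sx n x).ncard : ℝ) * ((Sx (n + 4) x).ncard : ℝ) * (1 + C / n) ∧
      |((Sx (n + 2) x).ncard : ℝ) / (μ ^ 2 * ((Sx n x).ncard : ℝ)) - 1| ≤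
        C * √(((n1 x : ℝ) + (n : ℝ) ^ (1 / 3 + ε)) / n) ∧
      ∀ D : Set (Fin 3 → ℤ), |((Sd (n + 2) x D).ncard : ℝ) / ((Sx (n + 2) x).ncard : ℝ) -
          ((Sd n x D).ncard : ℝ) / ((Sx n x).ncard : ℝ)| ≤
        C * √(((n1 x : ℝ) + (n : ℝ) ^ (1 / 3 + ε)) / n) := by
  obtain ⟨K, K₁, hK, hK₁, hlow, hup, -, -⟩ := engine
  obtain ⟨C, δ, N, hC, hδ, hN, h⟩ := Q78.Z3.main3 ε hε hε1
  obtain ⟨Cp, hCp, hpsi⟩ := psi3_pow K ε hK hε
  have hμ1 := mu_one
  have hμ : 0 < μ := by linarith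
  have hlμ : 0 ≤ Real.log μ := Real.log_nonneg hμ1
  have hlim := (phi3 K K₁ hK hK₁).lim
  have hev : ∀ᶠ n : ℕ in atTop, 2 * (K₁ * psi3 K n) ≤ δ / 4 * n := by
    have h1 := hlim.eventually (gt_mem_nhds (show (0 : ℝ) < δ / 8 by positivity))
    filter_upwards [h1, eventually_ge_atTop 1] with n h2 h3
    have h4 : (0 : ℝ) < n := by exact_mod_cast h3
    rw [div_lt_iff₀ h4] at h2
    linarith
  obtain ⟨N', hN'⟩ := eventually_atTop.1 hev
  obtain ⟨δ', hδ'⟩ : ∃ δ', δ' = min (1 / 2) (δ / (4 * (Real.log μ + 1))) := ⟨_, rfl⟩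
  have hδ'0 : 0 < δ' := by rw [hδ']; positivity
  have hδ'1 : δ' ≤ 1 / 2 := hδ' ▸ min_le_left _ _
  have hδ'2 : δ' * Real.log μ ≤ δ / 4 := by
    have h1 : δ' ≤ δ / (4 * (Real.log μ + 1)) := hδ' ▸ min_le_right _ _
    rw [le_div_iff₀ (by positivity)] at h1
    nlinarith
  obtain ⟨M, hM⟩ : ∃ M : ℝ, M = 1 + Real.log μ + 2 * K₁ * Cp := ⟨_, rfl⟩
  have hM1 : 1 ≤ M := by
    rw [hM]
    have : 0 ≤ 2 * K₁ * Cp := by positivity
    linarith
  refine ⟨C * √M, δ', max (max N N') 12, by positivity, hδ'0, hδ'1, ?_⟩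
  intro n hn x hx hpar hxn
  have hnN : N ≤ n := le_trans (le_trans (le_max_left _ _) (le_max_left _ _)) hn
  have hnN' : N' ≤ n := le_trans (le_trans (le_max_right _ _) (le_max_left _ _)) hn
  have hn12 : 12 ≤ n := le_trans (le_max_right _ _) hn
  have hn0 : (12 : ℝ) ≤ n := by exact_mod_cast hn12
  have hadm : Adm x n := by
    refine ⟨?_, hpar⟩
    have h1 : (n1 x : ℝ) ≤ 1 / 2 * n := hxn.trans (by nlinarith)
    have h2 : (n1 x : ℝ) + 6 ≤ n := by linarith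
    exact_mod_cast h2
  -- the probability
  obtain ⟨R, hR⟩ : ∃ R : Unit → (Fin 3 → ℤ) → (Fin 3 → ℤ) → Prop, R = fun _ e _ => e = x :=
    ⟨_, rfl⟩
  have hRm : ∀ e z, MeasurableSet {ω : Unit | R ω e z} := fun _ _ => MeasurableSet.of_discrete
  have hFF : ∀ m, Q78.Z3.FF (Measure.dirac ()) R m = ((Sx m x).ncard : ℝ) := by
    intro m
    unfold Q78.Z3.FF
    rw [integral_dirac, Q78.Z3.card_KR_fun, ← Nat.card_coe_set_eq]
    congr 1
    refine Nat.card_congr (Equiv.subtypeEquivRight fun ω => ?_)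
    rw [hR]
    unfold Sx
    constructor
    · rintro ⟨h1, h2⟩
      exact ⟨h1, h2 0⟩
    · rintro ⟨h1, h2⟩
      exact ⟨h1, fun _ => h2⟩
  have hpl : ∀ m, Adm x m → Real.exp (-(n1 x * Real.log μ + 2 * (K₁ * psi3 K m))) ≤
      Q78.Z3.PP (Measure.dirac ()) R m := by
    intro m hm
    have hm2 : 2 ≤ m := by
      have := hm.1
      omega
    unfold Q78.Z3.PP
    rw [hFF, le_div_iff₀ (TH966.KO.c_pos m)]
    have g1 := hlow x hx m hm
    have g2 := hup m hm2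
    have g3 : μ ^ m = μ ^ (m - n1 x) * Real.exp (n1 x * Real.log μ) := by
      rw [Real.exp_nat_mul, Real.exp_log hμ, ← pow_add]
      congr 1
      have := hm.1
      omega
    obtain ⟨ψ, hψ⟩ : ∃ ψ, ψ = K₁ * psi3 K m := ⟨_, rfl⟩
    rw [← hψ] at g1 g2 ⊢
    calc Real.exp (-(n1 x * Real.log μ + 2 * ψ)) * (c m : ℝ)
        ≤ Real.exp (-(n1 x * Real.log μ + 2 * ψ)) * (μ ^ m * Real.exp ψ) := by gcongr
      _ = μ ^ (m - n1 x) * Real.exp (-ψ) := by
          rw [g3]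
          have : Real.exp (-(n1 x * Real.log μ + 2 * ψ)) *
              (μ ^ (m - n1 x) * Real.exp (n1 x * Real.log μ) * Real.exp ψ) =
              μ ^ (m - n1 x) * (Real.exp (-(n1 x * Real.log μ + 2 * ψ)) *
                Real.exp (n1 x * Real.log μ) * Real.exp ψ) := by ring
          rw [this, ← Real.exp_add, ← Real.exp_add]
          congr 2
          ring
      _ ≤ (Real.exp ψ * ((Sx m x).ncard : ℝ)) * Real.exp (-ψ) := by gcongr
      _ = (Real.exp ψ * Real.exp (-ψ)) * ((Sx m x).ncard : ℝ) := by ring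
      _ = _ := by rw [← Real.exp_add, add_neg_cancel, Real.exp_zero, one_mul]
  have hxl : (n1 x : ℝ) * Real.log μ ≤ δ / 4 * n := by
    calc (n1 x : ℝ) * Real.log μ ≤ (δ' * n) * Real.log μ := by gcongr
      _ = (δ' * Real.log μ) * n := by ring
      _ ≤ δ / 4 * n := by gcongr
  have hp1 : Real.exp (-δ * n) ≤ Q78.Z3.PP (Measure.dirac ()) R n := by
    refine le_trans (Real.exp_le_exp.2 ?_) (hpl n hadm)
    have := hN' n hnN'
    nlinarith
  have hp2 : Real.exp (-δ * n) ≤ Q78.Z3.PP (Measure.dirac ()) R (n + 2) := by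
    refine le_trans (Real.exp_le_exp.2 ?_) (hpl (n + 2) (adm_add hadm 1))
    have := hN' (n + 2) (by omega)
    push_cast at this
    nlinarith
  have herr : Q78.Z3.err ε (Q78.Z3.PP (Measure.dirac ()) R n) n ≤
      √M * √(((n1 x : ℝ) + (n : ℝ) ^ (1 / 3 + ε)) / n) := by
    unfold Q78.Z3.err
    rw [← Real.sqrt_mul (by linarith)]
    refine Real.sqrt_le_sqrt ?_
    rw [← mul_div_assoc]
    have hp := hpl n hadm
    have hpp : 0 < Q78.Z3.PP (Measure.dirac ()) R n := lt_of_lt_of_le (Real.exp_pos _) hp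
    have h1 : Real.log (1 / Q78.Z3.PP (Measure.dirac ()) R n) ≤
        n1 x * Real.log μ + 2 * (K₁ * psi3 K n) := by
      rw [one_div, Real.log_inv]
      have := Real.log_le_log (Real.exp_pos _) hp
      rw [Real.log_exp] at this
      linarith
    have h2 := hpsi n (by omega)
    have h3 : (0 : ℝ) ≤ (n : ℝ) ^ (1 / 3 + ε) := by positivity
    have h4 : (0 : ℝ) ≤ (n1 x : ℝ) := Nat.cast_nonneg _
    have h5 : 2 * (K₁ * psi3 K n) ≤ 2 * K₁ * Cp * (n : ℝ) ^ (1 / 3 + ε) := by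
      have : 2 * K₁ * psi3 K n ≤ 2 * K₁ * (Cp * (n : ℝ) ^ (1 / 3 + ε)) :=
        mul_le_mul_of_nonneg_left h2 (by linarith)
      linarith
    have h6 : Real.log (1 / Q78.Z3.PP (Measure.dirac ()) R n) + (n : ℝ) ^ (1 / 3 + ε) ≤
        M * ((n1 x : ℝ) + (n : ℝ) ^ (1 / 3 + ε)) := by
      have h7 : 0 ≤ (1 + 2 * K₁ * Cp) * (n1 x : ℝ) := by positivity
      have h8 : 0 ≤ Real.log μ * (n : ℝ) ^ (1 / 3 + ε) := by positivity
      rw [hM]
      nlinarith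
    gcongr
  obtain ⟨h1, h2, -⟩ := h Unit (Measure.dirac ()) R hRm
  have h1 := h1 n hnN hp2
  obtain ⟨h2, h3⟩ := h2 n hnN hp1
  simp only [hFF] at h1 h2
  refine ⟨?_, ?_, ?_⟩
  · refine h1.trans ?_
    have hsq : (1 : ℝ) ≤ √M := by rw [Real.one_le_sqrt]; exact hM1
    have : C / n ≤ C * √M / n := by
      gcongr
      nlinarith
    gcongr
  · refine h2.trans ?_
    rw [mul_assoc]
    exact mul_le_mul_of_nonneg_left herr hC.le
  · intro D
    have h4 := h3 (fun _ e z => e = x ∧ z ∈ D) (fun _ _ => MeasurableSet.of_discrete)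
      (fun _ e z hez => by rw [hR]; exact hez.1)
    have hFD : ∀ m, Q78.Z3.FF (Measure.dirac ())
        (fun (_ : Unit) (e z : TH966.KO.BR.V3) => e = x ∧ z ∈ D) m = ((Sd m x D).ncard : ℝ) := by
      intro m
      unfold Q78.Z3.FF
      rw [integral_dirac, Q78.Z3.card_KR_fun, ← Nat.card_coe_set_eq]
      congr 1
      refine Nat.card_congr (Equiv.subtypeEquivRight fun ω => ?_)
      unfold Sd
      constructor
      · rintro ⟨h1, h2⟩
        exact ⟨h1, (h2 0).1, fun i => (h2 i).2⟩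
      · rintro ⟨h1, h2, h3⟩
        exact ⟨h1, fun i => ⟨h2, h3 i⟩⟩
    simp only [hFF, hFD] at h4
    refine h4.trans ?_
    rw [mul_assoc]
    exact mul_le_mul_of_nonneg_left herr hC.le

end Pool.Agent.Helper17.SW
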