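import Pool.Agent.Helper17.SW.Path
import Pool.Graph.R_seed8.TH966.KO.WEnd

/-!
# Counting
-/

set_option autoImplicit false

namespace Pool.Agent.Helper17.SW

open TH966.KO (IsSAW)

/-- the walk as a function on `ℕ` -/
def ex (n : ℕ) (ω : Fin (n + 1) → Fin 3 → ℤ) (k : ℕ) : Fin 3 → ℤ := ω ⟨min k n, by omega⟩

theorem ex_le {n : ℕ} (ω : Fin (n + 1) → Fin 3 → ℤ) {k : ℕ} (hk : k ≤ n) :
    ex n ω k = ω ⟨k, by omega⟩ := by
  unfold ex
  congr 1
  exact Fin.ext (Nat.min_eq_left hk)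

theorem ex_wk {n : ℕ} {ω : Fin (n + 1) → Fin 3 → ℤ} (h : IsSAW n ω) : Wk n (ex n ω) := by
  obtain ⟨h0, h1, h2⟩ := h
  refine ⟨?_, fun k hk => ?_, fun i j hi hj hij => ?_⟩
  · rw [ex_le ω (by omega)]
    exact h0
  · rw [ex_le ω (by omega), ex_le ω (by omega)]
    exact h1 ⟨k, hk⟩
  · rw [ex_le ω hi, ex_le ω hj] at hij
    have := h2 hij
    rw [Fin.mk.injEq] at this
    exact this

theorem res_saw {n : ℕ} {g : ℕ → Fin 3 → ℤ} (h : Wk n g) : IsSAW n (fun i : Fin (n + 1) => g i) := by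
  refine ⟨h.zero, fun i => ?_, fun i j hij => ?_⟩
  · exact h.step i i.isLt
  · exact Fin.ext (h.inj i j (by omega) (by omega) hij)

/-- the walks from `0` to `x` -/
def Sx (n : ℕ) (x : Fin 3 → ℤ) : Set (Fin (n + 1) → Fin 3 → ℤ) :=
  {ω | IsSAW n ω ∧ ω (Fin.last n) = x}

/-- the bridges from `0` to `y` -/
def Bx (n : ℕ) (y : Fin 3 → ℤ) : Set (Fin (n + 1) → Fin 3 → ℤ) :=
  {ω | (IsSAW n ω ∧ ∀ i : Fin n, 0 < ω i.succ 0 ∧ ω i.succ 0 ≤ ω (Fin.last n) 0) ∧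
    ω (Fin.last n) = y}

/-- the bridges -/
def Bs (n : ℕ) : Set (Fin (n + 1) → Fin 3 → ℤ) :=
  {ω | IsSAW n ω ∧ ∀ i : Fin n, 0 < ω i.succ 0 ∧ ω i.succ 0 ≤ ω (Fin.last n) 0}

theorem fin_saw (n : ℕ) : {ω | IsSAW n ω}.Finite := by
  rw [← (TH966.KO.bij n).image_eq]
  exact (Finset.finite_toSet _).image _

theorem fin_Sx (n : ℕ) (x : Fin 3 → ℤ) : (Sx n x).Finite :=
  (fin_saw n).subset fun _ h => h.1

theorem fin_Bs (n : ℕ) : (Bs n).Finite :=
  (fin_saw n).subset fun _ h => h.1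

theorem fin_Bx (n : ℕ) (y : Fin 3 → ℤ) : (Bx n y).Finite :=
  (fin_saw n).subset fun _ h => h.1.1

theorem bx_bg {n : ℕ} {y : Fin 3 → ℤ} {ω : Fin (n + 1) → Fin 3 → ℤ} (h : ω ∈ Bx n y) :
    Bg n (ex n ω) ∧ ex n ω n = y := by
  obtain ⟨⟨h1, h2⟩, h3⟩ := h
  refine ⟨⟨ex_wk h1, fun k hk hkn => ?_⟩, ?_⟩
  · rw [ex_le ω hkn, ex_le ω le_rfl]
    have := h2 ⟨k - 1, by omega⟩
    rw [show (⟨k - 1, by omega⟩ : Fin n).succ = ⟨k, by omega⟩ from Fin.ext (by
      simp only [Fin.val_succ]; omega)] at this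
    exact this
  · rw [ex_le ω le_rfl]
    exact h3

open Classical in
/-- the chosen shift -/
noncomputable def i1 (n : ℕ) (a : Fin 3 → ℤ) (f : ℕ → Fin 3 → ℤ) : ℕ :=
  if h : ∃ i < n, ∀ k, 0 ≤ A a (sh n f i k) then h.choose else 0

theorem i1_spec {n : ℕ} (hn : 1 ≤ n) {f : ℕ → Fin 3 → ℤ} {a : Fin 3 → ℤ}
    (ha : A a (f n) = 0) : i1 n a f < n ∧ ∀ k, 0 ≤ A a (sh n f (i1 n a f) k) := by
  have h := exists_sh hn ha
  unfold i1
  rw [dif_pos h]
  exact h.choose_spec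

theorem A_nega (a z : Fin 3 → ℤ) : A (-a) z = -A a z := by
  unfold A; simp only [Pi.neg_apply]; ring

/-- **Pairs of bridges.** -/
theorem pair_le {n L : ℕ} (hn : 1 ≤ n) {y v a : Fin 3 → ℤ} {c : ℕ → Fin 3 → ℤ}
    (hay : A a y = 0) (hc : Cn a v L c) :
    (Bx n y).ncard ^ 2 ≤ n ^ 2 * (Sx (2 * n + L) (-v)).ncard := by
  have hfB := fin_Bx n y
  have hfS := fin_Sx (2 * n + L) (-v)
  have : Finite (Bx n y) := hfB
  have : Finite (Sx (2 * n + L) (-v)) := hfS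
  have hay' : A (-a) y = 0 := by rw [A_nega, hay, neg_zero]
  have s1 : ∀ ω : Bx n y, i1 n a (ex n ω.1) < n ∧
      ∀ k, 0 ≤ A a (sh n (ex n ω.1) (i1 n a (ex n ω.1)) k) := fun ω =>
    i1_spec hn (by rw [(bx_bg ω.2).2]; exact hay)
  have s2 : ∀ ω : Bx n y, i1 n (-a) (ex n ω.1) < n ∧
      ∀ k, 0 ≤ A (-a) (sh n (ex n ω.1) (i1 n (-a) (ex n ω.1)) k) := fun ω =>
    i1_spec hn (by rw [(bx_bg ω.2).2]; exact hay')
  have key : ∀ ω ω' : Bx n y, Wk (2 * n + L)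
      (glue n L (sh n (ex n ω.1) (i1 n a (ex n ω.1))) c
        (sh n (ex n ω'.1) (i1 n (-a) (ex n ω'.1))) y v) ∧
      glue n L (sh n (ex n ω.1) (i1 n a (ex n ω.1))) c
        (sh n (ex n ω'.1) (i1 n (-a) (ex n ω'.1))) y v (2 * n + L) = -v := by
    intro ω ω'
    refine glue_wk (a := a) (sh_wk hn (bx_bg ω.2).1 _) ?_ (s1 ω).2 (sh_wk hn (bx_bg ω'.2).1 _) ?_ ?_
      hc hay
    · rw [sh_n hn, (bx_bg ω.2).2]
    · rw [sh_n hn, (bx_bg ω'.2).2]
    · intro k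
      have := (s2 ω').2 k
      rw [A_nega] at this
      omega
  obtain ⟨F, hF⟩ : ∃ F : Bx n y × Bx n y → (Fin n × Fin n) × Sx (2 * n + L) (-v),
      F = fun p => ((⟨i1 n a (ex n p.1.1), (s1 p.1).1⟩, ⟨i1 n (-a) (ex n p.2.1), (s2 p.2).1⟩),
        ⟨fun i : Fin (2 * n + L + 1) => glue n L (sh n (ex n p.1.1) (i1 n a (ex n p.1.1))) c
          (sh n (ex n p.2.1) (i1 n (-a) (ex n p.2.1))) y v i,
          res_saw (key p.1 p.2).1, (key p.1 p.2).2⟩) := ⟨_, rfl⟩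
  have hinj : Function.Injective F := by
    rintro ⟨⟨ω₁, h₁⟩, ⟨ω₂, h₂⟩⟩ ⟨⟨ω₃, h₃⟩, ⟨ω₄, h₄⟩⟩ he
    rw [hF] at he
    simp only [Prod.mk.injEq, Fin.mk.injEq] at he
    obtain ⟨⟨e1, e2⟩, e3'⟩ := he
    have e3 := congrArg Subtype.val e3'
    have e4 : ∀ k ≤ 2 * n + L, glue n L (sh n (ex n ω₁) (i1 n a (ex n ω₁))) c
          (sh n (ex n ω₂) (i1 n (-a) (ex n ω₂))) y v k =
        glue n L (sh n (ex n ω₃) (i1 n a (ex n ω₃))) c
          (sh n (ex n ω₄) (i1 n (-a) (ex n ω₄))) y v k := fun k hk =>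
      congrFun e3 (⟨k, by omega⟩ : Fin (2 * n + L + 1))
    rw [← e1, ← e2] at e4
    have hL := hc.one
    have h13 : ω₁ = ω₃ := by
      have h5 := sh_det (i := i1 n a (ex n ω₁)) hn (bx_bg h₁).1.zero (bx_bg h₃).1.zero
        (s1 ⟨ω₁, h₁⟩).1 (fun k hk => by
          have h6 := e4 k (by omega)
          rwa [glue1 hk, glue1 hk] at h6)
      funext i
      have h7 := h5 i (by omega)
      rwa [ex_le _ (by omega), ex_le _ (by omega)] at h7
    have h24 : ω₂ = ω₄ := by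
      have h5 := sh_det (i := i1 n (-a) (ex n ω₂)) hn (bx_bg h₂).1.zero (bx_bg h₄).1.zero
        (s2 ⟨ω₂, h₂⟩).1 (fun k hk => by
          have h6 := e4 (2 * n + L - k) (by omega)
          rw [glue3 hL (by omega), glue3 hL (by omega),
            show 2 * n + L - (2 * n + L - k) = k by omega] at h6
          exact add_left_cancel h6)
      funext i
      have h7 := h5 i (by omega)
      rwa [ex_le _ (by omega), ex_le _ (by omega)] at h7
    rw [Prod.mk.injEq, Subtype.mk.injEq, Subtype.mk.injEq]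
    exact ⟨h13, h24⟩
  have := Nat.card_le_card_of_injective F hinj
  rw [Nat.card_prod, Nat.card_prod, Nat.card_prod, Nat.card_coe_set_eq, Nat.card_coe_set_eq,
    Nat.card_eq_fintype_card, Fintype.card_fin] at this
  rw [sq, sq]
  exact this

/-! ### symmetries -/

theorem symm_le (n : ℕ) (x : Fin 3 → ℤ) (π : Equiv.Perm (Fin 3)) (ε : Fin 3 → ℤ)
    (hε : ∀ j, |ε j| = 1) :
    (Sx n x).ncard ≤ (Sx n (fun j => ε j * x (π j))).ncard := by
  have hε0 : ∀ j, ε j ≠ 0 := fun j h => by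
    have := hε j
    rw [h] at this
    simp at this
  refine Set.ncard_le_ncard_of_injOn (fun ω i j => ε j * ω i (π j)) ?_ ?_ (fin_Sx _ _)
  · rintro ω ⟨⟨h0, h1, h2⟩, h3⟩
    refine ⟨⟨?_, ?_, ?_⟩, ?_⟩
    · funext j
      change ε j * ω 0 (π j) = 0
      rw [h0]
      simp
    · intro i
      rw [← h1 i, ← Equiv.sum_comp π (fun j => |ω i.succ j - ω i.castSucc j|)]
      refine Finset.sum_congr rfl fun j _ => ?_
      rw [← mul_sub, abs_mul, hε j, one_mul]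
    · intro i i' h
      apply h2
      funext j
      have := congrFun h (π.symm j)
      simp only [Equiv.apply_symm_apply] at this
      exact mul_left_cancel₀ (hε0 _) this
    · funext j
      change ε j * ω (Fin.last n) (π j) = _
      rw [h3]
  · intro ω _ ω' _ h
    funext i j
    have := congrFun (congrFun h i) (π.symm j)
    simp only [Equiv.apply_symm_apply] at this
    exact mul_left_cancel₀ (hε0 _) this

theorem n1_symm (x : Fin 3 → ℤ) (π : Equiv.Perm (Fin 3)) (ε : Fin 3 → ℤ)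
    (hε : ∀ j, |ε j| = 1) : n1 (fun j => ε j * x (π j)) = n1 x := by
  unfold n1
  rw [← Equiv.sum_comp π (fun j => (x j).natAbs)]
  refine Finset.sum_congr rfl fun j _ => ?_
  rw [Int.natAbs_mul]
  have : (ε j).natAbs = 1 := by
    have := hε j
    rw [Int.abs_eq_natAbs] at this
    exact_mod_cast this
  rw [this, one_mul]

end Pool.Agent.Helper17.SW
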