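import Pool.Agent.Helper17.SW.Fin

/-!
# Regularity to all orders
-/

set_option autoImplicit false

namespace Pool.Agent.Helper17.SW

open Finset Filter Topology KN TH966.KO TH966.KO.BR Pool.Agent.N929.EG

/-- differences with step `2` -/
noncomputable def df (r : ℕ) (u : ℕ → ℝ) (n : ℕ) : ℝ :=
  ∑ i ∈ range (r + 1), (-1 : ℝ) ^ i * (r.choose i : ℝ) * u (n + 2 * i)

/-- the admissible lengths -/
def Adm (x : Fin 3 → ℤ) (n : ℕ) : Prop := n1 x + 6 ≤ n ∧ 2 ∣ n - n1 x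

/-- the rate -/
noncomputable def rt (K : ℝ) (n : ℕ) : ℝ :=
  (n : ℝ) ^ (-(1 / 3) : ℝ) * Real.exp (K * Real.log (Real.log n) ^ 2)

theorem rt_nonneg (K : ℝ) (n : ℕ) : 0 ≤ rt K n := by
  unfold rt
  positivity

theorem adm_add {x : Fin 3 → ℤ} {n : ℕ} (h : Adm x n) (i : ℕ) : Adm x (n + 2 * i) := by
  unfold Adm at *
  omega

theorem engine : ∃ K K₁ : ℝ, 0 ≤ K ∧ 3 ≤ K₁ ∧
    (∀ x : Fin 3 → ℤ, x ≠ 0 → ∀ n : ℕ, Adm x n →
      μ ^ (n - n1 x) ≤ Real.exp (K₁ * psi3 K n) * ((Sx n x).ncard : ℝ)) ∧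
    (∀ n : ℕ, 2 ≤ n → (c n : ℝ) ≤ μ ^ n * Real.exp (K₁ * psi3 K n)) ∧
    (∀ r : ℕ, 1 ≤ r → ∃ C : ℝ, 0 < C ∧ ∀ n : ℕ, 3 ≤ n →
      |df r (fun m => Real.log ((c m : ℝ) / μ ^ m)) n| ≤ C * rt K n ^ r) ∧
    ∀ x : Fin 3 → ℤ, x ≠ 0 → ∀ r : ℕ, 1 ≤ r → ∃ C : ℝ, 0 < C ∧ ∀ n : ℕ, Adm x n →
      |df r (fun m => Real.log (((Sx m x).ncard : ℝ) / μ ^ m)) n| ≤ C * rt K n ^ r := by
  classical
  obtain ⟨Y, H⟩ := sys3 Pool.Agent.N546.EG.cnt3
  obtain ⟨K0, K10, hK0, hK10, G0⟩ := H.gr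
  obtain ⟨Kl, Kl1, hKl, hKl1, hlow⟩ := low
  obtain ⟨K, hKd⟩ : ∃ K, K = max K0 Kl := ⟨_, rfl⟩
  obtain ⟨K₁, hK1d⟩ : ∃ K, K = max K10 Kl1 := ⟨_, rfl⟩
  have hK : 0 ≤ K := hKd ▸ hK0.trans (le_max_left _ _)
  have hK₁ : 3 ≤ K₁ := hK1d ▸ hK10.trans (le_max_left _ _)
  have hmono : ∀ (k k₁ : ℝ), 0 ≤ k → 0 ≤ k₁ → k ≤ K → k₁ ≤ K₁ → ∀ n : ℕ,
      k₁ * psi3 k n ≤ K₁ * psi3 K n := by
    intro k k₁ h1 h2 h3 h4 n
    exact mul_le_mul h4 (psi3_mono h1 h3 le_rfl) (psi3_nonneg _ _) (by linarith)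
  have hm0 := hmono K0 K10 hK0 (by linarith) (hKd ▸ le_max_left _ _) (hK1d ▸ le_max_left _ _)
  have hml := hmono Kl Kl1 hKl hKl1 (hKd ▸ le_max_right _ _) (hK1d ▸ le_max_right _ _)
  have hμ1 := mu_one
  have hμ : 0 < μ := by linarith
  have G : Gr Y μ (fun n => K₁ * psi3 K n) := by
    refine ⟨G0.one, phi3 K K₁ hK hK₁, fun n m hn hm => ?_, G0.pat⟩
    refine (G0.up n m hn hm).trans ?_
    exact mul_le_mul_of_nonneg_left (Real.exp_le_exp.2 (hm0 n)) (by positivity)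
  have hlow' : ∀ x : Fin 3 → ℤ, x ≠ 0 → ∀ n : ℕ, Adm x n →
      μ ^ (n - n1 x) ≤ Real.exp (K₁ * psi3 K n) * ((Sx n x).ncard : ℝ) := by
    intro x hx n hn
    refine (hlow x hx n hn.1 hn.2).trans ?_
    exact mul_le_mul_of_nonneg_right (Real.exp_le_exp.2 (hml n)) (Nat.cast_nonneg _)
  have hrate : ∀ (C : ℝ) (r n : ℕ), 0 ≤ C → 3 ≤ n →
      C * Real.sqrt ((fun n => K₁ * psi3 K n) n / n) ^ r ≤
        (C * (Real.sqrt K₁ * Real.exp (4 * K)) ^ r) * rt K n ^ r := by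
    intro C r n hC hn
    rw [mul_assoc, ← mul_pow]
    refine mul_le_mul_of_nonneg_left (pow_le_pow_left₀ (Real.sqrt_nonneg _) ?_ r) hC
    exact sqrt_phi3 hK (by linarith) hn
  refine ⟨K, K₁, hK, hK₁, hlow', ?_, ?_, ?_⟩
  · intro n hn
    have := G.up n n hn (by omega)
    rwa [card_Y H] at this
  · intro r hr
    obtain ⟨C, hC, h⟩ := cntT Y G (low3 H _) r hr
    refine ⟨C * (Real.sqrt K₁ * Real.exp (4 * K)) ^ r, by positivity, fun n hn => ?_⟩
    have h1 := h n (by omega)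
    rw [H.s] at h1
    simp only [card_Y H] at h1
    exact h1.trans (hrate C r n hC.le hn)
  · intro x hx r hr
    have hF : ∀ n, ∑ w ∈ Y.K n, (if E (e3 w) = x then (1 : ℝ) else 0) = ((Sx n x).ncard : ℝ) := by
      intro n
      rw [sum_Y H, card_Sx]
      simp only [e3_path]
    obtain ⟨C, hC, h⟩ := s_inv _ _ Y μ _ G (Adm x) (fun w => if E (e3 w) = x then 1 else 0) 1 0
      (by norm_num) (fun n hn => by unfold Adm at hn; omega)
      (fun n hn => by rw [H.s]; exact adm_add hn 1)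
      (fun n w _ => by
        split_ifs <;> norm_num)
      (fun n w hw q hq => by simp only [H.e3 n w hw q hq])
      ⟨n1 x * Real.log μ + 1, by
        have := Real.log_nonneg hμ1
        positivity, fun n hn => by
        rw [hF]
        have h1 := hlow' x hx n hn
        have h2 : μ ^ n = μ ^ (n1 x) * μ ^ (n - n1 x) := by
          rw [← pow_add]
          congr 1
          unfold Adm at hn
          omega
        have h3 : μ ^ (n1 x) = Real.exp (n1 x * Real.log μ) := by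
          rw [Real.exp_nat_mul, Real.exp_log hμ]
        have h4 : (1 : ℝ) ≤ K₁ * psi3 K n := by
          have := one_le_psi3 hK (n := n) (by unfold Adm at hn; omega)
          nlinarith
        have h5 : (n1 x : ℝ) * Real.log μ ≤ (n1 x * Real.log μ) * (K₁ * psi3 K n) := by
          have : 0 ≤ (n1 x : ℝ) * Real.log μ := by
            have := Real.log_nonneg hμ1
            positivity
          nlinarith
        rw [h2]
        calc μ ^ (n1 x) * μ ^ (n - n1 x) ≤ Real.exp ((n1 x * Real.log μ) * (K₁ * psi3 K n)) *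
              (Real.exp (K₁ * psi3 K n) * ((Sx n x).ncard : ℝ)) := by
              refine mul_le_mul ?_ h1 (by positivity) (Real.exp_pos _).le
              rw [h3]
              exact Real.exp_le_exp.2 h5
          _ = _ := by
              rw [← mul_assoc, ← Real.exp_add]
              congr 2
              ring⟩ r hr
    refine ⟨C * (Real.sqrt K₁ * Real.exp (4 * K)) ^ r, by positivity, fun n hn => ?_⟩
    have h1 := h n hn
    rw [H.s] at h1
    simp only [hF] at h1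
    exact h1.trans (hrate C r n hC.le (by unfold Adm at hn; omega))

end Pool.Agent.Helper17.SW
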