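import Pool.Agent.Helper17.SW.Pig
import Pool.Graph.R_pool_sql_team_seeded_63374d34.N929.EG.Three
import Pool.Graph.R_pool_sql_team_seeded_63374d34.N546.EG.CNT3
import Pool.Graph.R_pool_sql_team_seeded_5cf16337.K3h14.SW.All
import Pool.Graph.R_pool_sql_team_seeded_5cf16337.K3h14.SW.EqP

/-!
# The bounds
-/

set_option autoImplicit false

namespace Pool.Agent.Helper17.SW

open Finset Filter Topology KN TH966.KO TH966.KO.BR Pool.Agent.N929.EG

theorem card_Bs (n : ℕ) : (Bs n).ncard = Pool.Agent.H46R2.K3.b n := by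
  rw [← Pool.Agent.K3h14.SW.card_br, ← Nat.card_coe_set_eq]
  refine Nat.card_congr (Equiv.subtypeEquivRight fun ω => ?_)
  unfold Bs TH966.KO.IsSAW
  simp only [Set.mem_ofPred_eq]
  tauto

theorem psi3_mono {K K' : ℝ} (hK : 0 ≤ K) (hKK : K ≤ K') {n m : ℕ} (h : n ≤ m) :
    psi3 K n ≤ psi3 K' m := by
  unfold psi3
  have h1 : (n : ℝ) ^ (1 / 3 : ℝ) ≤ (m : ℝ) ^ (1 / 3 : ℝ) :=
    Real.rpow_le_rpow (Nat.cast_nonneg n) (by exact_mod_cast h) (by norm_num)
  have h2 : K * ll n ≤ K' * ll m := mul_le_mul hKK (ll_mono h) (ll_nonneg n) (by linarith)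
  exact mul_le_mul h1 (Real.exp_le_exp.2 h2) (Real.exp_pos _).le (by positivity)

/-- **The lower bound.** -/
theorem low : ∃ K K₁ : ℝ, 0 ≤ K ∧ 0 ≤ K₁ ∧ ∀ x : Fin 3 → ℤ, x ≠ 0 → ∀ N : ℕ,
    n1 x + 6 ≤ N → 2 ∣ N - n1 x →
      μ ^ (N - n1 x) ≤ Real.exp (K₁ * psi3 K N) * ((Sx N x).ncard : ℝ) := by
  obtain ⟨K, hK, hb⟩ := Pool.Agent.K3h14.SW.hb_bound
  refine ⟨K, 2 * K + 24, hK.le, by linarith, fun x hx N hN hpar => ?_⟩
  obtain ⟨n, hn⟩ := hpar
  have hn3 : 3 ≤ n := by omega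
  have hNn : N = 2 * n + n1 x := by omega
  have hn1 : 1 ≤ n1 x := by
    by_contra hcon
    have h0 : n1 x = 0 := by omega
    unfold n1 at h0
    rw [Finset.sum_eq_zero_iff] at h0
    apply hx
    funext j
    have := h0 j (mem_univ j)
    exact Int.natAbs_eq_zero.1 this
  have hμ : 0 < μ := by linarith [mu_one]
  have h1 := hb n hn3
  unfold Pool.Agent.K3h14.SW.hb at h1
  rw [le_div_iff₀ (pow_pos Pool.Agent.K3h14.SW.mu0 n), ← card_Bs] at h1
  have h1' : μ ^ n ≤ Real.exp (K * psi3 K N) * ((Bs n).ncard : ℝ) := by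
    have h2 : K * (n : ℝ) ^ (1 / 3 : ℝ) * Real.exp (K * Real.log (Real.log n) ^ 2) ≤
        K * psi3 K N := by
      have h3 : (n : ℝ) ^ (1 / 3 : ℝ) * Real.exp (K * Real.log (Real.log n) ^ 2) ≤ psi3 K n := by
        unfold psi3
        have := le_ll hn3
        gcongr
      have h4 := psi3_mono hK.le le_rfl (show n ≤ N by omega)
      rw [mul_assoc]
      exact mul_le_mul_of_nonneg_left (h3.trans h4) hK.le
    have h5 : Real.exp (-(K * psi3 K N)) * μ ^ n ≤ ((Bs n).ncard : ℝ) := by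
      refine le_trans (mul_le_mul_of_nonneg_right (Real.exp_le_exp.2 (neg_le_neg h2)) ?_) h1
      positivity
    calc μ ^ n = Real.exp (K * psi3 K N) * (Real.exp (-(K * psi3 K N)) * μ ^ n) := by
          rw [← mul_assoc, ← Real.exp_add, add_neg_cancel, Real.exp_zero, one_mul]
      _ ≤ _ := mul_le_mul_of_nonneg_left h5 (Real.exp_pos _).le
  have h6 : (((Bs n).ncard : ℝ)) ^ 2 ≤ (2 * (n : ℝ) + 1) ^ 6 * (n : ℝ) ^ 2 *
      ((Sx N x).ncard : ℝ) := by
    rw [hNn]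
    exact_mod_cast walks_of_bridges (show 1 ≤ n by omega) hx
  have h7 : (2 * (n : ℝ) + 1) ^ 6 * (n : ℝ) ^ 2 ≤ Real.exp (24 * psi3 K N) := by
    have h8 : Real.log N ≤ 3 * psi3 K N := (phi3 K 3 hK.le le_rfl).log N (by omega)
    have h9 : (2 * (n : ℝ) + 1) ≤ N := by
      have : 2 * n + 1 ≤ N := by omega
      exact_mod_cast this
    have h10 : (n : ℝ) ≤ N := by
      have : n ≤ N := by omega
      exact_mod_cast this
    have hN0 : (0 : ℝ) < N := by
      have : 0 < N := by omega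
      exact_mod_cast this
    calc (2 * (n : ℝ) + 1) ^ 6 * (n : ℝ) ^ 2 ≤ (N : ℝ) ^ 6 * (N : ℝ) ^ 2 := by gcongr
      _ = Real.exp (8 * Real.log N) := by
          rw [← pow_add, show (8 : ℝ) * Real.log N = Real.log ((N : ℝ) ^ 8) by
            rw [Real.log_pow]; norm_num, Real.exp_log (by positivity)]
      _ ≤ Real.exp (24 * psi3 K N) := Real.exp_le_exp.2 (by linarith)
  have h11 : μ ^ (N - n1 x) = (μ ^ n) ^ 2 := by
    rw [← pow_mul]
    congr 1
    omega
  rw [h11]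
  calc (μ ^ n) ^ 2 ≤ (Real.exp (K * psi3 K N) * ((Bs n).ncard : ℝ)) ^ 2 := by gcongr
    _ = Real.exp (2 * K * psi3 K N) * (((Bs n).ncard : ℝ)) ^ 2 := by
        rw [mul_pow, ← Real.exp_nat_mul]
        push_cast
        ring_nf
    _ ≤ Real.exp (2 * K * psi3 K N) * (Real.exp (24 * psi3 K N) * ((Sx N x).ncard : ℝ)) := by
        refine mul_le_mul_of_nonneg_left (h6.trans ?_) (Real.exp_pos _).le
        exact mul_le_mul_of_nonneg_right h7 (Nat.cast_nonneg _)
    _ = _ := by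
        rw [← mul_assoc, ← Real.exp_add]
        ring_nf

theorem card_Sx (n : ℕ) (x : Fin 3 → ℤ) :
    ((Sx n x).ncard : ℝ) = ∑ u ∈ SS n, if E (pos u) = x then (1 : ℝ) else 0 := by
  classical
  rw [Finset.sum_boole]
  have h : Sx n x = wk n '' (((SS n).filter (fun u => E (pos u) = x) : Finset (List Dir)) :
      Set (List Dir)) := by
    ext ω
    constructor
    · rintro ⟨h1, h2⟩
      obtain ⟨u, hu, rfl⟩ := (bij n).surjOn h1
      refine ⟨u, ?_, rfl⟩
      rw [Finset.mem_coe, Finset.mem_filter]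
      refine ⟨hu, ?_⟩
      rw [← h2, wk_last (mem_SS.1 (Finset.mem_coe.1 hu)).1]
    · rintro ⟨u, hu, rfl⟩
      rw [Finset.mem_coe, Finset.mem_filter] at hu
      refine ⟨(bij n).mapsTo (Finset.mem_coe.2 hu.1), ?_⟩
      rw [wk_last (mem_SS.1 hu.1).1]
      exact hu.2
  rw [h, Set.InjOn.ncard_image, Set.ncard_coe_finset]
  refine (bij n).injOn.mono fun u hu => ?_
  rw [Finset.mem_coe, Finset.mem_filter] at hu
  exact Finset.mem_coe.2 hu.1

end Pool.Agent.Helper17.SW
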