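import Mathlib

/-!
# Self-avoiding walks on `ℤ³` with a given end point from pairs of bridges: geometry
-/

set_option autoImplicit false

namespace Pool.Agent.Helper17.SW

/-- unit steps -/
def U (z : Fin 3 → ℤ) : Prop := ∑ j, |z j| = 1

theorem U_neg {z : Fin 3 → ℤ} (h : U z) : U (-z) := by
  unfold U at *
  simpa using h

/-- `g` is an `n`-step self-avoiding walk from `0` (as a function on `ℕ`) -/
structure Wk (n : ℕ) (g : ℕ → Fin 3 → ℤ) : Prop where
  zero : g 0 = 0
  step : ∀ k < n, U (g (k + 1) - g k)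
  inj : ∀ i j, i ≤ n → j ≤ n → g i = g j → i = j

/-- bridges -/
structure Bg (n : ℕ) (f : ℕ → Fin 3 → ℤ) : Prop extends Wk n f where
  br : ∀ k, 1 ≤ k → k ≤ n → 0 < f k 0 ∧ f k 0 ≤ f n 0

/-- the periodic extension of a bridge -/
def per (n : ℕ) (f : ℕ → Fin 3 → ℤ) (k : ℕ) : Fin 3 → ℤ := f (k % n) + ((k / n : ℕ) : ℤ) • f n

theorem per_lt {n : ℕ} {f : ℕ → Fin 3 → ℤ} {k : ℕ} (hk : k < n) : per n f k = f k := by
  unfold per
  rw [Nat.mod_eq_of_lt hk, Nat.div_eq_of_lt hk]
  simp

theorem per_add {n : ℕ} (hn : 1 ≤ n) (f : ℕ → Fin 3 → ℤ) (k : ℕ) :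
    per n f (k + n) = per n f k + f n := by
  unfold per
  rw [Nat.add_mod_right, Nat.add_div_right _ (by omega)]
  push_cast
  rw [add_smul, one_smul, add_assoc]

theorem per_n {n : ℕ} (hn : 1 ≤ n) {f : ℕ → Fin 3 → ℤ} (h0 : f 0 = 0) : per n f n = f n := by
  have h1 := per_add hn f 0
  have h2 : per n f 0 = f 0 := per_lt (by omega)
  rw [zero_add, h2, h0, zero_add] at h1
  exact h1

theorem per_step {n : ℕ} (hn : 1 ≤ n) {f : ℕ → Fin 3 → ℤ} (h : Wk n f) (k : ℕ) :
    U (per n f (k + 1) - per n f k) := by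
  have hr : k % n < n := Nat.mod_lt _ (by omega)
  have hk : n * (k / n) + k % n = k := Nat.div_add_mod k n
  obtain ⟨q, hq⟩ : ∃ q, q = k / n := ⟨_, rfl⟩
  obtain ⟨r, hr'⟩ : ∃ r, r = k % n := ⟨_, rfl⟩
  rw [← hq, ← hr'] at hk
  rw [← hr'] at hr
  rcases Nat.lt_or_ge (r + 1) n with h1 | h1
  · have e1 : (k + 1) % n = r + 1 := by
      rw [← hk, add_assoc, Nat.mul_add_mod, Nat.mod_eq_of_lt h1]
    have e2 : (k + 1) / n = q := by
      rw [← hk, add_assoc, Nat.mul_add_div (by omega), Nat.div_eq_of_lt h1, add_zero]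
    unfold per
    rw [e1, e2, ← hq, ← hr', add_sub_add_right_eq_sub]
    exact h.step r hr
  · have h2 : r + 1 = n := by omega
    have e0 : k + 1 = n * (q + 1) := by rw [← hk, mul_add, mul_one]; omega
    have e1 : (k + 1) % n = 0 := by rw [e0, Nat.mul_mod_right]
    have e2 : (k + 1) / n = q + 1 := by rw [e0, Nat.mul_div_cancel_left _ (by omega)]
    unfold per
    rw [e1, e2, ← hq, ← hr', h.zero]
    have h3 := h.step r hr
    rw [h2] at h3
    have : (0 + ((q + 1 : ℕ) : ℤ) • f n) - (f r + (q : ℤ) • f n) = f n - f r := by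
      push_cast
      rw [add_smul, one_smul]
      abel
    rw [this]
    exact h3

theorem per_inj {n : ℕ} (hn : 1 ≤ n) {f : ℕ → Fin 3 → ℤ} (h : Bg n f) {k k' : ℕ}
    (hkk : per n f k = per n f k') : k = k' := by
  wlog hle : k / n ≤ k' / n generalizing k k'
  · exact (this hkk.symm (by omega)).symm
  have hr : k % n < n := Nat.mod_lt _ (by omega)
  have hr' : k' % n < n := Nat.mod_lt _ (by omega)
  have hk : n * (k / n) + k % n = k := Nat.div_add_mod k n
  have hk' : n * (k' / n) + k' % n = k' := Nat.div_add_mod k' n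
  have h0 := congrFun hkk 0
  have hy := h.br n hn le_rfl
  unfold per at h0 hkk
  simp only [Pi.add_apply, Pi.smul_apply, smul_eq_mul] at h0
  obtain ⟨q, hq⟩ : ∃ q, q = k / n := ⟨_, rfl⟩
  obtain ⟨r, hrr⟩ : ∃ r, r = k % n := ⟨_, rfl⟩
  obtain ⟨q', hq'⟩ : ∃ q, q = k' / n := ⟨_, rfl⟩
  obtain ⟨r', hrr'⟩ : ∃ r, r = k' % n := ⟨_, rfl⟩
  rw [← hq, ← hrr] at hk h0 hkk
  rw [← hq', ← hrr'] at hk' h0 hkk
  rw [← hrr] at hr
  rw [← hrr'] at hr'
  rw [← hq, ← hq'] at hle
  -- the first coordinates
  have hb : ∀ s, s < n → 0 ≤ f s 0 ∧ f s 0 ≤ f n 0 ∧ (f s 0 = 0 → s = 0) := by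
    intro s hs
    rcases Nat.eq_zero_or_pos s with rfl | h1
    · rw [h.zero]
      simp
      omega
    · have := h.br s h1 hs.le
      omega
  have b1 := hb r hr
  have b2 := hb r' hr'
  rcases Nat.lt_or_ge q q' with hlt | hge
  · exfalso
    obtain ⟨d, hd⟩ := Nat.exists_eq_add_of_lt hlt
    have h3 : (q' : ℤ) = q + d + 1 := by rw [hd]; push_cast; ring
    rw [h3] at h0
    have h4 : f r 0 = f r' 0 + (d : ℤ) * f n 0 + f n 0 := by linarith [h0]
    have h5 : 0 ≤ (d : ℤ) * f n 0 := mul_nonneg (by positivity) (by omega)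
    have h6 : f r 0 = f n 0 := by omega
    have h7 : f r' 0 = 0 := by omega
    have h8 : (d : ℤ) * f n 0 = 0 := by omega
    have h9 : d = 0 := by
      rcases mul_eq_zero.1 h8 with h | h
      · exact_mod_cast h
      · omega
    have h10 := b2.2.2 h7
    rw [h10, h.zero, h3, h9] at hkk
    have h11 : f r = f n := by
      have : f r + (q : ℤ) • f n = (q : ℤ) • f n + f n := by
        rw [hkk]
        push_cast
        rw [add_zero, add_smul, one_smul]
        abel
      rw [add_comm] at this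
      exact add_left_cancel this
    have := h.inj r n (by omega) le_rfl h11
    omega
  · have e : q = q' := by omega
    rw [e] at hkk
    have := h.inj r r' (by omega) (by omega) (add_right_cancel hkk)
    rw [← hk, ← hk', e, this]

/-- a linear functional -/
def A (a z : Fin 3 → ℤ) : ℤ := a 0 * z 0 + a 1 * z 1 + a 2 * z 2

theorem A_add (a z w : Fin 3 → ℤ) : A a (z + w) = A a z + A a w := by
  unfold A; simp only [Pi.add_apply]; ring

theorem A_sub (a z w : Fin 3 → ℤ) : A a (z - w) = A a z - A a w := by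
  unfold A; simp only [Pi.sub_apply]; ring

theorem A_neg (a z : Fin 3 → ℤ) : A a (-z) = -A a z := by
  unfold A; simp only [Pi.neg_apply]; ring

theorem A_smul (a z : Fin 3 → ℤ) (c : ℤ) : A a (c • z) = c * A a z := by
  unfold A; simp only [Pi.smul_apply, smul_eq_mul]; ring

theorem A_per {n : ℕ} {f : ℕ → Fin 3 → ℤ} {a : Fin 3 → ℤ} (ha : A a (f n) = 0) (k : ℕ) :
    A a (per n f k) = A a (f (k % n)) := by
  unfold per
  rw [A_add, A_smul, ha, mul_zero, add_zero]

/-- the cyclic shift of a bridge -/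
def sh (n : ℕ) (f : ℕ → Fin 3 → ℤ) (i k : ℕ) : Fin 3 → ℤ := per n f (i + k) - per n f i

theorem sh_wk {n : ℕ} (hn : 1 ≤ n) {f : ℕ → Fin 3 → ℤ} (h : Bg n f) (i : ℕ) :
    Wk n (sh n f i) := by
  refine ⟨by simp [sh], fun k _ => ?_, fun j k _ _ hjk => ?_⟩
  · have := per_step hn h.toWk (i + k)
    unfold sh
    rw [sub_sub_sub_cancel_right, ← add_assoc]
    exact this
  · unfold sh at hjk
    have := per_inj hn h (sub_left_injective hjk)
    omega

theorem sh_n {n : ℕ} (hn : 1 ≤ n) (f : ℕ → Fin 3 → ℤ) (i : ℕ) : sh n f i n = f n := by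
  unfold sh
  rw [per_add hn]
  abel

/-- the shift that makes the functional nonnegative -/
theorem exists_sh {n : ℕ} (hn : 1 ≤ n) {f : ℕ → Fin 3 → ℤ} {a : Fin 3 → ℤ}
    (ha : A a (f n) = 0) : ∃ i < n, ∀ k, 0 ≤ A a (sh n f i k) := by
  obtain ⟨i, hi, h⟩ := Finset.exists_min_image (Finset.range n) (fun i => A a (f i))
    ⟨0, Finset.mem_range.2 (by omega)⟩
  rw [Finset.mem_range] at hi
  refine ⟨i, hi, fun k => ?_⟩
  have h1 := h ((i + k) % n) (Finset.mem_range.2 (Nat.mod_lt _ (by omega)))
  unfold sh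
  rw [A_sub, A_per ha, A_per ha, Nat.mod_eq_of_lt hi]
  omega

/-- a bridge is determined by its cyclic shift -/
theorem sh_det {n : ℕ} (hn : 1 ≤ n) {f f' : ℕ → Fin 3 → ℤ} (h : f 0 = 0) (h' : f' 0 = 0)
    {i : ℕ} (hi : i < n) (he : ∀ k ≤ n, sh n f i k = sh n f' i k) :
    ∀ k ≤ n, f k = f' k := by
  have e1 : f n = f' n := by
    have := he n le_rfl
    rwa [sh_n hn, sh_n hn] at this
  have e2 : per n f i = per n f' i := by
    have h3 := he (n - i) (by omega)
    unfold sh at h3
    rw [show i + (n - i) = n by omega, per_n hn h, per_n hn h', e1] at h3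
    exact sub_right_injective h3
  intro k hk
  rcases Nat.lt_or_ge k i with h1 | h1
  · have h3 := he (k + n - i) (by omega)
    unfold sh at h3
    have q1 : per n f k = f k := per_lt (by omega)
    have q2 : per n f' k = f' k := per_lt (by omega)
    rw [show i + (k + n - i) = k + n by omega, per_add hn, per_add hn, e1, e2, q1, q2] at h3
    exact add_right_cancel (sub_left_inj.1 h3)
  · rcases Nat.lt_or_ge k n with h2 | h2
    · have h3 := he (k - i) (by omega)
      unfold sh at h3
      rw [show i + (k - i) = k by omega, e2, per_lt h2, per_lt h2] at h3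
      exact sub_left_injective h3
    · have : k = n := by omega
      rw [this]
      exact e1

/-- connecting paths from `0` to `-v` which cross the strip `-A v < A < 0` -/
structure Cn (a v : Fin 3 → ℤ) (L : ℕ) (c : ℕ → Fin 3 → ℤ) : Prop extends Wk L c where
  one : 1 ≤ L
  last : c L = -v
  strip : ∀ k, 0 < k → k < L → -A a v < A a (c k) ∧ A a (c k) < 0
  pos : 0 < A a v

/-- the walk made of two bridges with the same end point -/
def glue (n L : ℕ) (W c W' : ℕ → Fin 3 → ℤ) (y v : Fin 3 → ℤ) (k : ℕ) : Fin 3 → ℤ :=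
  if k ≤ n then W k else if k < n + L then y + c (k - n) else -v + W' (2 * n + L - k)

theorem glue1 {n L : ℕ} {W c W' : ℕ → Fin 3 → ℤ} {y v : Fin 3 → ℤ} {k : ℕ} (hk : k ≤ n) :
    glue n L W c W' y v k = W k := by
  unfold glue; rw [if_pos hk]

theorem glue2 {n L : ℕ} {W c W' : ℕ → Fin 3 → ℤ} {y v : Fin 3 → ℤ} (hW : W n = y) (hc : c 0 = 0)
    {k : ℕ} (hk : n ≤ k) (hk2 : k < n + L) : glue n L W c W' y v k = y + c (k - n) := by
  unfold glue
  split_ifs with h1
  · have : k = n := by omega
    rw [this, hW, Nat.sub_self, hc, add_zero]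
  · rfl

theorem glue3 {n L : ℕ} {W c W' : ℕ → Fin 3 → ℤ} {y v : Fin 3 → ℤ} (hL : 1 ≤ L)
    {k : ℕ} (hk : n + L ≤ k) : glue n L W c W' y v k = -v + W' (2 * n + L - k) := by
  unfold glue
  rw [if_neg (by omega), if_neg (by omega)]

theorem glue_wk {n L : ℕ} {W c W' : ℕ → Fin 3 → ℤ} {y v a : Fin 3 → ℤ}
    (hW : Wk n W) (hWn : W n = y) (hWA : ∀ k, 0 ≤ A a (W k))
    (hW' : Wk n W') (hWn' : W' n = y) (hWA' : ∀ k, A a (W' k) ≤ 0)
    (hc : Cn a v L c) (hy : A a y = 0) :
    Wk (2 * n + L) (glue n L W c W' y v) ∧ glue n L W c W' y v (2 * n + L) = -v := by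
  have hL := hc.one
  have hv := hc.pos
  refine ⟨⟨?_, ?_, ?_⟩, ?_⟩
  · rw [glue1 (by omega), hW.zero]
  · intro k hk
    rcases Nat.lt_or_ge k n with h1 | h1
    · rw [glue1 (by omega), glue1 (by omega)]
      exact hW.step k h1
    · rcases Nat.lt_or_ge k (n + L) with h2 | h2
      · rw [glue2 hWn hc.zero h1 h2]
        rcases Nat.lt_or_ge (k + 1) (n + L) with h3 | h3
        · rw [glue2 hWn hc.zero (by omega) h3, add_sub_add_left_eq_sub,
            show k + 1 - n = (k - n) + 1 by omega]
          exact hc.step _ (by omega)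
        · have h4 : k - n + 1 = L := by omega
          have h5 := hc.step (k - n) (by omega)
          rw [h4, hc.last] at h5
          rw [glue3 hL h3, show 2 * n + L - (k + 1) = n by omega, hWn']
          have : -v + y - (y + c (k - n)) = -v - c (k - n) := by abel
          rw [this]
          exact h5
      · rw [glue3 hL h2, glue3 hL (by omega), add_sub_add_left_eq_sub]
        have h5 := hW'.step (2 * n + L - (k + 1)) (by omega)
        rw [show 2 * n + L - (k + 1) + 1 = 2 * n + L - k by omega] at h5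
        have := U_neg h5
        rwa [neg_sub] at this
  · intro i j hi hj hij
    wlog hle : i ≤ j generalizing i j
    · exact (this j i hj hi hij.symm (by omega)).symm
    -- values of the functional
    have v1 : ∀ k, k ≤ n → 0 ≤ A a (glue n L W c W' y v k) := fun k hk => by
      rw [glue1 hk]; exact hWA k
    have v2 : ∀ k, n < k → k < n + L →
        -A a v < A a (glue n L W c W' y v k) ∧ A a (glue n L W c W' y v k) < 0 := by
      intro k h1 h2
      rw [glue2 hWn hc.zero (by omega) h2, A_add, hy, zero_add]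
      exact hc.strip _ (by omega) (by omega)
    have v3 : ∀ k, n + L ≤ k → A a (glue n L W c W' y v k) ≤ -A a v := by
      intro k h1
      rw [glue3 hL h1, A_add, A_neg]
      have := hWA' (2 * n + L - k)
      omega
    have hAij := congrArg (A a) hij
    rcases Nat.lt_or_ge n i with h1 | h1
    · rcases Nat.lt_or_ge i (n + L) with h2 | h2
      · have w := v2 i h1 h2
        rcases Nat.lt_or_ge j (n + L) with h3 | h3
        · rw [glue2 hWn hc.zero (by omega) h2, glue2 hWn hc.zero (by omega) h3] at hij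
          have := hc.inj (i - n) (j - n) (by omega) (by omega) (add_left_cancel hij)
          omega
        · have := v3 j h3
          omega
      · rw [glue3 hL h2, glue3 hL (by omega)] at hij
        have := hW'.inj _ _ (by omega) (by omega) (add_left_cancel hij)
        omega
    · have w := v1 i h1
      rcases Nat.lt_or_ge n j with h3 | h3
      · rcases Nat.lt_or_ge j (n + L) with h4 | h4
        · have := v2 j h3 h4
          omega
        · have := v3 j h4
          omega
      · rw [glue1 h1, glue1 h3] at hij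
        exact hW.inj i j h1 h3 hij
  · rw [glue3 hL (by omega), Nat.sub_self, hW'.zero, add_zero]

end Pool.Agent.Helper17.SW
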