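import Pool.Agent.Helper17.SW.Loop

/-!
# Connecting paths
-/

set_option autoImplicit false

namespace Pool.Agent.Helper17.SW

/-- the `ℓ¹` norm -/
def n1 (x : Fin 3 → ℤ) : ℕ := ∑ j, (x j).natAbs

/-- the functional -/
def fa (y : Fin 3 → ℤ) (s : ℤ) : Fin 3 → ℤ := ![-(y 1 + s * y 2), y 0, s * y 0]

theorem fa_y (y : Fin 3 → ℤ) (s : ℤ) : A (fa y s) y = 0 := by
  unfold A fa
  simp
  ring

theorem exists_cn {y v : Fin 3 → ℤ} {s : ℤ} (hy : 1 ≤ y 0) (h1 : 1 ≤ v 1) (h2 : 0 ≤ v 2)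
    (h02 : v 0 = 0 ∨ 1 ≤ v 2) (hs : s = if 1 ≤ v 2 then 1 else 0)
    (hv0 : 0 ≤ -(y 1 + s * y 2) * v 0) : ∃ c, Cn (fa y s) v (n1 v) c := by
  obtain ⟨σ, hσ, hσ1⟩ : ∃ σ : ℤ, v 0 = σ * (v 0).natAbs ∧ (σ = 1 ∨ σ = -1) := by
    rcases le_total 0 (v 0) with h | h
    · exact ⟨1, by omega, Or.inl rfl⟩
    · exact ⟨-1, by omega, Or.inr rfl⟩
  obtain ⟨m0, hm0⟩ : ∃ m : ℕ, m = (v 0).natAbs := ⟨_, rfl⟩
  obtain ⟨m1, hm1⟩ : ∃ m : ℕ, m = (v 1).natAbs := ⟨_, rfl⟩
  obtain ⟨m2, hm2⟩ : ∃ m : ℕ, m = (v 2).natAbs := ⟨_, rfl⟩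
  have hL : n1 v = m0 + m1 + m2 := by
    unfold n1
    rw [Fin.sum_univ_three, hm0, hm1, hm2]
  have e1 : v 1 = m1 := by omega
  have e2 : v 2 = m2 := by omega
  have hm1' : 1 ≤ m1 := by omega
  rw [← hm0] at hσ
  obtain ⟨p0, hp0⟩ : ∃ p : ℕ → ℕ, p = fun k => min (k - 1) m0 := ⟨_, rfl⟩
  obtain ⟨p1, hp1⟩ : ∃ p : ℕ → ℕ, p = fun k => min k 1 + min (k - 1 - m0) (m1 - 1) := ⟨_, rfl⟩
  obtain ⟨p2, hp2⟩ : ∃ p : ℕ → ℕ, p = fun k => min (k - m0 - m1) m2 := ⟨_, rfl⟩
  have hsum : ∀ k, k ≤ m0 + m1 + m2 → p0 k + p1 k + p2 k = k := by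
    intro k hk
    rw [hp0, hp1, hp2]
    simp only
    omega
  have hmono : ∀ k, p0 k ≤ p0 (k + 1) ∧ p1 k ≤ p1 (k + 1) ∧ p2 k ≤ p2 (k + 1) := by
    intro k
    rw [hp0, hp1, hp2]
    simp only
    omega
  have hle : ∀ k, p0 k ≤ m0 ∧ p1 k ≤ m1 ∧ p2 k ≤ m2 := by
    intro k
    rw [hp0, hp1, hp2]
    simp only
    omega
  have hpos : ∀ k, 0 < k → 1 ≤ p1 k := by
    intro k hk
    rw [hp1]
    simp only
    omega
  have hlast : ∀ k, k < m0 + m1 + m2 → (m2 = 0 → p1 k < m1 ∨ m0 ≠ 0) ∧ (m2 ≠ 0 → p2 k < m2) := by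
    intro k hk
    rw [hp1, hp2]
    simp only
    omega
  refine ⟨fun k => ![-(σ * p0 k), -(p1 k : ℤ), -(p2 k : ℤ)], ⟨⟨?_, ?_, ?_⟩, ?_, ?_, ?_, ?_⟩⟩
  · have h := hsum 0 (by omega)
    have a0 : p0 0 = 0 := by omega
    have a1 : p1 0 = 0 := by omega
    have a2 : p2 0 = 0 := by omega
    ext j
    fin_cases j <;> simp [a0, a1, a2]
  · intro k hk
    rw [hL] at hk
    have h := hsum k (by omega)
    have h' := hsum (k + 1) (by omega)
    have hm := hmono k
    unfold U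
    rw [Fin.sum_univ_three]
    simp only [Pi.sub_apply, Matrix.cons_val_zero, Matrix.cons_val_one, Matrix.cons_val]
    rcases hσ1 with rfl | rfl
    · simp only [one_mul, Int.abs_eq_natAbs]
      omega
    · simp only [neg_mul, one_mul, neg_neg, Int.abs_eq_natAbs]
      omega
  · intro i j hi hj hij
    rw [hL] at hi hj
    have q0 := congrFun hij 0
    have q1 := congrFun hij 1
    have q2 := congrFun hij 2
    simp only [Matrix.cons_val_zero, Matrix.cons_val_one, Matrix.cons_val] at q0 q1 q2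
    have h := hsum i hi
    have h' := hsum j hj
    rcases hσ1 with rfl | rfl
    · simp only [one_mul] at q0
      omega
    · simp only [neg_mul, one_mul, neg_neg] at q0
      omega
  · omega
  · have h := hsum (n1 v) (by omega)
    have h' := hle (n1 v)
    rw [hL] at h h' ⊢
    have a0 : p0 (m0 + m1 + m2) = m0 := by omega
    have a1 : p1 (m0 + m1 + m2) = m1 := by omega
    have a2 : p2 (m0 + m1 + m2) = m2 := by omega
    ext j
    fin_cases j
    · simp [a0, hσ]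
    · simp [a1, e1]
    · simp [a2, e2]
  · intro k hk hkL
    rw [hL] at hkL
    have hl := hle k
    have hp := hpos k hk
    have hla := hlast k hkL
    have ha0 : 0 ≤ -(y 1 + s * y 2) * σ ∨ m0 = 0 := by
      rcases Nat.eq_zero_or_pos m0 with h | h
      · exact Or.inr h
      · left
        rw [hσ, ← mul_assoc] at hv0
        exact nonneg_of_mul_nonneg_left hv0 (by exact_mod_cast h)
    have hs' : s = 1 ∧ 1 ≤ m2 ∨ s = 0 ∧ m2 = 0 ∧ m0 = 0 := by
      split_ifs at hs with h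
      · left
        exact ⟨hs, by omega⟩
      · right
        refine ⟨hs, by omega, ?_⟩
        rcases h02 with h3 | h3
        · omega
        · exact absurd h3 h
    have hA : ∀ z0 z1 z2 : ℤ, A (fa y s) ![z0, z1, z2] =
        -(y 1 + s * y 2) * z0 + y 0 * z1 + s * y 0 * z2 := by
      intro z0 z1 z2
      unfold A fa
      simp
    have hAv : A (fa y s) v = -(y 1 + s * y 2) * σ * m0 + y 0 * m1 + s * y 0 * m2 := by
      unfold A fa
      simp only [Matrix.cons_val_zero, Matrix.cons_val_one, Matrix.cons_val]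
      rw [hσ, e1, e2]
      ring
    rw [hA, hAv]
    have t0 : 0 ≤ -(y 1 + s * y 2) * σ * (p0 k : ℤ) := by
      rcases ha0 with h | h
      · positivity
      · have : p0 k = 0 := by omega
        rw [this]; simp
    have t0' : 0 ≤ -(y 1 + s * y 2) * σ * ((m0 : ℤ) - p0 k) := by
      rcases ha0 with h | h
      · exact mul_nonneg h (by omega)
      · have : (m0 : ℤ) - p0 k = 0 := by omega
        rw [this]; simp
    have t1 : y 0 ≤ y 0 * (p1 k : ℤ) := by nlinarith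
    have t1' : 0 ≤ y 0 * ((m1 : ℤ) - p1 k) := mul_nonneg (by omega) (by omega)
    rcases hs' with ⟨rfl, h3⟩ | ⟨rfl, h3, h4⟩
    · have t2 : 0 ≤ y 0 * (p2 k : ℤ) := by positivity
      have t2' : y 0 ≤ y 0 * ((m2 : ℤ) - p2 k) := by
        have : (1 : ℤ) ≤ (m2 : ℤ) - p2 k := by
          have := hla.2 (by omega)
          omega
        nlinarith
      constructor <;> linarith
    · have t1'' : y 0 ≤ y 0 * ((m1 : ℤ) - p1 k) := by
        have : (1 : ℤ) ≤ (m1 : ℤ) - p1 k := by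
          rcases hla.1 h3 with h | h
          · omega
          · exact absurd h4 h
        nlinarith
      constructor <;> linarith
  · have hAv : A (fa y s) v = -(y 1 + s * y 2) * v 0 + y 0 * v 1 + s * y 0 * v 2 := by
      unfold A fa
      simp
    rw [hAv]
    have t1 : 1 ≤ y 0 * v 1 := by nlinarith
    have t2 : 0 ≤ s * y 0 * v 2 := by
      have : 0 ≤ s := by
        rw [hs]
        split_ifs <;> norm_num
      positivity
    omega

end Pool.Agent.Helper17.SW
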