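import Pool.Agent.Helper17.SW.Count

/-!
# Walks with a given end point and bridges
-/

set_option autoImplicit false

namespace Pool.Agent.Helper17.SW

open TH966.KO (IsSAW)

theorem exists_perm {x : Fin 3 → ℤ} (hx : x ≠ 0) :
    ∃ π : Equiv.Perm (Fin 3), x (π 1) ≠ 0 ∧ (x (π 0) = 0 ∨ x (π 2) ≠ 0) := by
  have h : x 0 ≠ 0 ∨ x 1 ≠ 0 ∨ x 2 ≠ 0 := by
    by_contra hcon
    push Not at hcon
    apply hx
    funext j
    fin_cases j
    · exact hcon.1
    · exact hcon.2.1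
    · exact hcon.2.2
  by_cases h0 : x 0 = 0
  · by_cases h1 : x 1 = 0
    · have h2 : x 2 ≠ 0 := by tauto
      refine ⟨Equiv.swap 1 2, ?_, Or.inl ?_⟩
      · rw [Equiv.swap_apply_left]; exact h2
      · rw [Equiv.swap_apply_of_ne_of_ne (by decide) (by decide)]; exact h0
    · exact ⟨1, h1, Or.inl h0⟩
  · by_cases h1 : x 1 = 0
    · refine ⟨Equiv.swap 0 1, ?_, Or.inl ?_⟩
      · rw [Equiv.swap_apply_right]; exact h0
      · rw [Equiv.swap_apply_left]; exact h1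
    · by_cases h2 : x 2 = 0
      · refine ⟨Equiv.swap 0 2, ?_, Or.inl ?_⟩
        · rw [Equiv.swap_apply_of_ne_of_ne (by decide) (by decide)]; exact h1
        · rw [Equiv.swap_apply_left]; exact h2
      · exact ⟨1, h1, Or.inr h2⟩

theorem exists_sign (t : ℤ) : ∃ e : ℤ, |e| = 1 ∧ 0 ≤ -(e * t) ∧ (t ≠ 0 → 1 ≤ -(e * t)) := by
  rcases le_total 0 t with h | h
  · exact ⟨-1, by norm_num, by omega, by omega⟩
  · exact ⟨1, by norm_num, by omega, by omega⟩

theorem exists_sign2 (u t : ℤ) : ∃ e : ℤ, |e| = 1 ∧ 0 ≤ u * (-(e * t)) := by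
  rcases le_total 0 (u * t) with h | h
  · exact ⟨-1, by norm_num, by linarith⟩
  · exact ⟨1, by norm_num, by linarith⟩

/-- the right position of the end point -/
theorem exists_pos {x : Fin 3 → ℤ} (hx : x ≠ 0) {y : Fin 3 → ℤ} (hy : 1 ≤ y 0) :
    ∃ (π : Equiv.Perm (Fin 3)) (ε : Fin 3 → ℤ), (∀ j, |ε j| = 1) ∧
      ∃ (s : ℤ) (c : ℕ → Fin 3 → ℤ),
        Cn (fa y s) (-(fun j => ε j * x (π j))) (n1 x) c := by
  obtain ⟨π, h1, h2⟩ := exists_perm hx
  obtain ⟨ε1, a1, -, b1⟩ := exists_sign (x (π 1))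
  obtain ⟨ε2, a2, b2, b2'⟩ := exists_sign (x (π 2))
  obtain ⟨s, hs⟩ : ∃ s : ℤ, s = if 1 ≤ -(ε2 * x (π 2)) then 1 else 0 := ⟨_, rfl⟩
  obtain ⟨ε0, a0, b0⟩ := exists_sign2 (-(y 1 + s * y 2)) (x (π 0))
  have hε : ∀ j, |(![ε0, ε1, ε2] : Fin 3 → ℤ) j| = 1 := by
    intro j
    fin_cases j
    · exact a0
    · exact a1
    · exact a2
  obtain ⟨v, hv⟩ : ∃ v : Fin 3 → ℤ, v = -(fun j => (![ε0, ε1, ε2] : Fin 3 → ℤ) j * x (π j)) :=
    ⟨_, rfl⟩
  have v0 : v 0 = -(ε0 * x (π 0)) := by rw [hv]; simp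
  have v1 : v 1 = -(ε1 * x (π 1)) := by rw [hv]; simp
  have v2 : v 2 = -(ε2 * x (π 2)) := by rw [hv]; simp
  have hn : n1 v = n1 x := by
    rw [← n1_symm x π _ hε, hv]
    unfold n1
    simp
  obtain ⟨c, hc⟩ := exists_cn (y := y) (v := v) (s := s) hy (by rw [v1]; exact b1 h1)
    (by rw [v2]; exact b2)
    (by
      rcases h2 with h2 | h2
      · left; rw [v0, h2]; simp
      · right; rw [v2]; exact b2' h2)
    (by rw [v2]; exact hs)
    (by rw [v0]; exact b0)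
  rw [hn, hv] at hc
  exact ⟨π, ![ε0, ε1, ε2], hε, s, c, hc⟩

theorem symm_ge (n : ℕ) (x : Fin 3 → ℤ) (π : Equiv.Perm (Fin 3)) (ε : Fin 3 → ℤ)
    (hε : ∀ j, |ε j| = 1) :
    (Sx n (fun j => ε j * x (π j))).ncard ≤ (Sx n x).ncard := by
  have h := symm_le n (fun j => ε j * x (π j)) π.symm (fun j => ε (π.symm j))
    (fun j => hε _)
  have e : (fun j => ε (π.symm j) * ((fun j => ε j * x (π j)) (π.symm j))) = x := by
    funext j
    simp only [Equiv.apply_symm_apply]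
    rw [← mul_assoc]
    have : ε (π.symm j) * ε (π.symm j) = 1 := by
      rw [← abs_mul_abs_self, hε, mul_one]
    rw [this, one_mul]
  rw [e] at h
  exact h

/-- walks to `x` from bridges to `y` -/
theorem bx_le {n : ℕ} (hn : 1 ≤ n) {x : Fin 3 → ℤ} (hx : x ≠ 0) (y : Fin 3 → ℤ) :
    (Bx n y).ncard ^ 2 ≤ n ^ 2 * (Sx (2 * n + n1 x) x).ncard := by
  rcases Set.eq_empty_or_nonempty (Bx n y) with h | ⟨ω, hω⟩
  · rw [h, Set.ncard_empty]
    simp
  · have hy : 1 ≤ y 0 := by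
      obtain ⟨h1, h2⟩ := bx_bg hω
      have := (h1.br n hn le_rfl).1
      rw [h2] at this
      omega
    obtain ⟨π, ε, hε, s, c, hc⟩ := exists_pos hx hy
    refine (pair_le hn (fa_y y s) hc).trans ?_
    rw [neg_neg]
    exact Nat.mul_le_mul_left _ (symm_ge _ x π ε hε)

theorem wk_bd {n : ℕ} {g : ℕ → Fin 3 → ℤ} (h : Wk n g) (j : Fin 3) :
    ∀ k ≤ n, |g k j| ≤ k := by
  intro k
  induction k with
  | zero => intro _; rw [h.zero]; simp
  | succ k ih =>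
    intro hk
    have h1 := ih (by omega)
    have h2 := h.step k (by omega)
    unfold U at h2
    have h3 : |(g (k + 1) - g k) j| ≤ 1 := by
      rw [← h2]
      exact Finset.single_le_sum (f := fun j => |(g (k + 1) - g k) j|)
        (fun _ _ => abs_nonneg _) (Finset.mem_univ j)
    rw [Pi.sub_apply] at h3
    have h4 : g (k + 1) j = (g (k + 1) j - g k j) + g k j := by ring
    rw [h4]
    push_cast
    have := abs_add_le (g (k + 1) j - g k j) (g k j)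
    linarith

/-- the end point that occurs most often -/
theorem pigeon (n : ℕ) : ∃ y, (Bs n).ncard ≤ (2 * n + 1) ^ 3 * (Bx n y).ncard := by
  classical
  obtain ⟨box, hbox⟩ : ∃ box : Finset (Fin 3 → ℤ),
      box = Fintype.piFinset (fun _ : Fin 3 => Finset.Icc (-(n : ℤ)) n) := ⟨_, rfl⟩
  have hcard : box.card = (2 * n + 1) ^ 3 := by
    rw [hbox, Fintype.card_piFinset]
    simp only [Int.card_Icc, Finset.prod_const, Finset.card_univ, Fintype.card_fin]
    congr 1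
    omega
  have hS := fin_Bs n
  obtain ⟨y, -, hy⟩ := Finset.exists_max_image box (fun y => (Bx n y).ncard)
    ⟨0, by rw [hbox, Fintype.mem_piFinset]; intro j; rw [Finset.mem_Icc]; simp⟩
  refine ⟨y, ?_⟩
  have hmap : ∀ ω ∈ hS.toFinset, ω (Fin.last n) ∈ box := by
    intro ω hω
    rw [Set.Finite.mem_toFinset] at hω
    rw [hbox, Fintype.mem_piFinset]
    intro j
    rw [Finset.mem_Icc]
    have h1 := wk_bd (ex_wk hω.1) j n le_rfl
    rw [ex_le ω le_rfl] at h1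
    exact abs_le.1 h1
  rw [Set.ncard_eq_toFinset_card _ hS, Finset.card_eq_sum_card_fiberwise hmap, ← hcard,
    ← smul_eq_mul]
  refine Finset.sum_le_card_nsmul _ _ _ fun z hz => ?_
  refine le_trans ?_ (hy z hz)
  rw [Set.ncard_eq_toFinset_card _ (fin_Bx n z)]
  refine Finset.card_le_card fun ω hω => ?_
  rw [Finset.mem_filter, Set.Finite.mem_toFinset] at hω
  rw [Set.Finite.mem_toFinset]
  exact hω

/-- **Walks to `x` from bridges.** -/
theorem walks_of_bridges {n : ℕ} (hn : 1 ≤ n) {x : Fin 3 → ℤ} (hx : x ≠ 0) :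
    (Bs n).ncard ^ 2 ≤ (2 * n + 1) ^ 6 * n ^ 2 * (Sx (2 * n + n1 x) x).ncard := by
  obtain ⟨y, hy⟩ := pigeon n
  calc (Bs n).ncard ^ 2 ≤ ((2 * n + 1) ^ 3 * (Bx n y).ncard) ^ 2 := Nat.pow_le_pow_left hy 2
    _ = (2 * n + 1) ^ 6 * (Bx n y).ncard ^ 2 := by ring
    _ ≤ (2 * n + 1) ^ 6 * (n ^ 2 * (Sx (2 * n + n1 x) x).ncard) :=
        Nat.mul_le_mul_left _ (bx_le hn hx y)
    _ = _ := by ring

end Pool.Agent.Helper17.SW
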